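import Pool.Agent.SepDist.Clique

/-!
# Cliques in a set of pairs

`E` is a finite set of pairs of points of the plane such that the distances `‖x.1 - y.1‖` and
`‖x.2 - y.2‖` of two pairs are equal as soon as they differ by less than one. The clique of a pair
`x` and a rotation `a` is the set of the pairs `y` with `‖y.2 - x.2 - a (y.1 - x.1)‖ < τ`. It is
induced by an orientation preserving isometry, or by an orientation reversing one and then its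
first coordinates are not collinear and lie in a thin strip.
-/

open Finset ComplexConjugate

namespace H95M

/-- Distances which are almost equal are equal. -/
def Rigid (E : Finset (ℂ × ℂ)) : Prop :=
  ∀ x ∈ E, ∀ y ∈ E, |‖x.1 - y.1‖ - ‖x.2 - y.2‖| < 1 → ‖x.1 - y.1‖ = ‖x.2 - y.2‖

/-- The clique of the pair `x` for the rotation `a`. -/
noncomputable def clique (E : Finset (ℂ × ℂ)) (τ : ℝ) (x : ℂ × ℂ) (a : ℂ) : Finset (ℂ × ℂ) :=
  E.filter fun y => ‖y.2 - x.2 - a * (y.1 - x.1)‖ < τ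

lemma mem_clique {E : Finset (ℂ × ℂ)} {τ : ℝ} {x : ℂ × ℂ} {a : ℂ} {y : ℂ × ℂ} :
    y ∈ clique E τ x a ↔ y ∈ E ∧ ‖y.2 - x.2 - a * (y.1 - x.1)‖ < τ := by
  unfold clique
  rw [mem_filter]

lemma self_mem_clique {E : Finset (ℂ × ℂ)} {τ : ℝ} (hτ : 0 < τ) {x : ℂ × ℂ} (hx : x ∈ E) (a : ℂ) :
    x ∈ clique E τ x a := by
  rw [mem_clique, sub_self, sub_self, mul_zero, sub_self, norm_zero]
  exact ⟨hx, hτ⟩

lemma clique_isometry {E : Finset (ℂ × ℂ)} (hE : Rigid E) {τ : ℝ} (hτ : τ ≤ 1 / 2) {x : ℂ × ℂ}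
    {a : ℂ} (ha : ‖a‖ = 1) {y z : ℂ × ℂ} (hy : y ∈ clique E τ x a) (hz : z ∈ clique E τ x a) :
    ‖y.1 - z.1‖ = ‖y.2 - z.2‖ := by
  rw [mem_clique] at hy hz
  refine hE y hy.1 z hz.1 ?_
  have e : y.2 - z.2 = a * (y.1 - z.1) +
      ((y.2 - x.2 - a * (y.1 - x.1)) - (z.2 - x.2 - a * (z.1 - x.1))) := by
    ring
  have h1 : ‖(y.2 - x.2 - a * (y.1 - x.1)) - (z.2 - x.2 - a * (z.1 - x.1))‖ < 1 :=
    lt_of_le_of_lt (norm_sub_le _ _) (by linarith [hy.2, hz.2])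
  rw [e, abs_lt]
  have h2 := norm_add_le (a * (y.1 - z.1))
    ((y.2 - x.2 - a * (y.1 - x.1)) - (z.2 - x.2 - a * (z.1 - x.1)))
  have h3 := norm_sub_norm_le (a * (y.1 - z.1))
    (-((y.2 - x.2 - a * (y.1 - x.1)) - (z.2 - x.2 - a * (z.1 - x.1))))
  rw [sub_neg_eq_add, norm_neg] at h3
  rw [norm_mul, ha, one_mul] at h2 h3
  constructor <;> linarith

lemma clique_fst_injOn {E : Finset (ℂ × ℂ)} (hE : Rigid E) {τ : ℝ} (hτ : τ ≤ 1 / 2) {x : ℂ × ℂ}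
    {a : ℂ} (ha : ‖a‖ = 1) : Set.InjOn Prod.fst (clique E τ x a : Set (ℂ × ℂ)) := by
  intro y hy z hz h
  have h1 := clique_isometry hE hτ ha hy hz
  have h' : y.1 = z.1 := h
  rw [h', sub_self, norm_zero] at h1
  exact Prod.ext h' (sub_eq_zero.1 (norm_eq_zero.1 h1.symm))

/-- A distance preserving set of pairs is induced by a rotation or by a reflection. -/
lemma rot_or_refl_set (P : Set (ℂ × ℂ)) (h0 : ∀ y ∈ P, ‖y.1‖ = ‖y.2‖)
    (h : ∀ y ∈ P, ∀ z ∈ P, ‖y.1 - z.1‖ = ‖y.2 - z.2‖) :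
    (∃ b : ℂ, ‖b‖ = 1 ∧ ∀ y ∈ P, y.2 = b * y.1) ∨
      ∃ l : ℂ, ‖l‖ = 1 ∧ ∀ y ∈ P, y.2 = l * conj y.1 := by
  -- the rotation of a pair
  have hrot : ∀ y ∈ P, y.1 ≠ 0 → ‖y.2 / y.1‖ = 1 ∧ y.2 = y.2 / y.1 * y.1 := by
    intro y hy hne
    refine ⟨?_, (div_mul_cancel₀ _ hne).symm⟩
    rw [norm_div, ← h0 y hy, div_self (norm_ne_zero_iff.2 hne)]
  have hzero : ∀ y ∈ P, y.1 = 0 → y.2 = 0 := by
    intro y hy hne
    have := h0 y hy
    rw [hne, norm_zero] at this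
    exact norm_eq_zero.1 this.symm
  by_cases hall : ∀ y ∈ P, y.1 = 0
  · left
    refine ⟨1, norm_one, fun y hy => ?_⟩
    rw [hall y hy, mul_zero]
    exact hzero y hy (hall y hy)
  push Not at hall
  obtain ⟨x0, hx0, hne0⟩ := hall
  by_cases hall : ∀ x ∈ P, x.1 ≠ 0 → x.2 / x.1 = x0.2 / x0.1
  · left
    refine ⟨x0.2 / x0.1, (hrot x0 hx0 hne0).1, fun x hx => ?_⟩
    by_cases hx1 : x.1 = 0
    · rw [hx1, mul_zero]
      exact hzero x hx hx1
    · rw [← hall x hx hx1]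
      exact (hrot x hx hx1).2
  right
  push Not at hall
  obtain ⟨y, hy, hy1, hyne⟩ := hall
  set u := x0.1 with hu
  set v := y.1 with hv
  set b := x0.2 / u with hb
  set c := y.2 / v with hc
  obtain ⟨hbn, hbu⟩ := hrot x0 hx0 hne0
  obtain ⟨hcn, hcv⟩ := hrot y hy hy1
  rw [← hu, ← hb] at hbn hbu
  rw [← hv, ← hc] at hcn hcv
  -- for all pairs of nontrivial elements
  have hpair : ∀ x ∈ P, ∀ y ∈ P, x.1 ≠ 0 → y.1 ≠ 0 → x.2 / x.1 = y.2 / y.1 ∨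
      x.2 / x.1 * x.1 * conj y.1 = y.2 / y.1 * y.1 * conj x.1 := by
    intro x hx y hy hx1 hy1
    refine SepDist.rot_or_refl (hrot x hx hx1).1 (hrot y hy hy1).1 hx1 hy1 ?_
    rw [← (hrot x hx hx1).2, ← (hrot y hy hy1).2]
    exact h x hx y hy
  have hcu : conj u ≠ 0 := (map_ne_zero _).2 hne0
  have hcv' : conj v ≠ 0 := (map_ne_zero _).2 hy1
  set l := b * u / conj u with hl
  have hln : ‖l‖ = 1 := by
    rw [hl, norm_div, norm_mul, hbn, one_mul, RCLike.norm_conj,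
      div_self (norm_ne_zero_iff.2 hne0)]
  have hlv : l = c * v / conj v := by
    rcases hpair x0 hx0 y hy hne0 hy1 with h | h
    · exact absurd h.symm hyne
    · rw [hl, div_eq_div_iff hcu hcv']
      exact h
  refine ⟨l, hln, fun x hx => ?_⟩
  by_cases hx1 : x.1 = 0
  · rw [hx1, map_zero, mul_zero]
    exact hzero x hx hx1
  · have hs := (hrot x hx hx1).2
    set s := x.1 with hs'
    set d := x.2 / s with hd
    have hfin : ∀ {b' u' : ℂ}, conj u' ≠ 0 → l = b' * u' / conj u' →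
        b' * u' * conj s = d * s * conj u' → x.2 = l * conj s := by
      intro b' u' hu' hl' h
      refine hs.trans (Eq.symm ?_)
      rw [hl', div_mul_eq_mul_div, div_eq_iff hu']
      exact h
    rcases hpair x0 hx0 x hx hne0 hx1 with h | h
    · rcases hpair y hy x hx hy1 hx1 with h' | h'
      · exact absurd (h'.trans h.symm) hyne
      · exact hfin hcv' hlv h'
    · exact hfin hcu hl h

/-- **The alternative.** -/
theorem clique_alt {E : Finset (ℂ × ℂ)} (hE : Rigid E) {τ : ℝ} (hτ0 : 0 < τ) (hτ : τ ≤ 1 / 2)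
    {x : ℂ × ℂ} (hx : x ∈ E) {a : ℂ} (ha : ‖a‖ = 1) :
    (∃ b : ℂ, ‖b‖ = 1 ∧ ∀ y ∈ clique E τ x a, y.2 - x.2 = b * (y.1 - x.1)) ∨
      ((∃ l : ℂ, ‖l‖ = 1 ∧ ∀ y ∈ clique E τ x a, y.2 - x.2 = l * conj (y.1 - x.1)) ∧
        (¬ Collinear ℝ ((fun y : ℂ × ℂ => y.1) '' (clique E τ x a : Set (ℂ × ℂ)))) ∧
        ∃ g : ℂ, ‖g‖ = 1 ∧ ∀ y ∈ clique E τ x a, |(conj g * (y.1 - x.1)).im| < τ / 2) := by
  classical
  have hxc := self_mem_clique hτ0 hx a
  by_cases hprop : ∃ b : ℂ, ‖b‖ = 1 ∧ ∀ y ∈ clique E τ x a, y.2 - x.2 = b * (y.1 - x.1)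
  · exact Or.inl hprop
  right
  rcases rot_or_refl_set
    ((fun y : ℂ × ℂ => (y.1 - x.1, y.2 - x.2)) '' (clique E τ x a : Set (ℂ × ℂ)))
    (by
      rintro _ ⟨y, hy, rfl⟩
      exact clique_isometry hE hτ ha hy hxc)
    (by
      rintro _ ⟨y, hy, rfl⟩ _ ⟨z, hz, rfl⟩
      simp only [sub_sub_sub_cancel_right]
      exact clique_isometry hE hτ ha hy hz) with ⟨b, hb, hbP⟩ | ⟨l, hl, hlP⟩
  · exact absurd ⟨b, hb, fun y hy => hbP _ ⟨y, hy, rfl⟩⟩ hprop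
  have hlE : ∀ y ∈ clique E τ x a, y.2 - x.2 = l * conj (y.1 - x.1) :=
    fun y hy => hlP _ ⟨y, hy, rfl⟩
  refine ⟨⟨l, hl, hlE⟩, ?_, ?_⟩
  · intro hcol
    apply hprop
    have hx1 : x.1 ∈ (fun y : ℂ × ℂ => y.1) '' (clique E τ x a : Set (ℂ × ℂ)) := ⟨x, hxc, rfl⟩
    rw [collinear_iff_of_mem hx1] at hcol
    obtain ⟨v, hv⟩ := hcol
    by_cases hv0 : v = 0
    · refine ⟨1, norm_one, fun y hy => ?_⟩
      obtain ⟨r, hr⟩ := hv y.1 ⟨y, hy, rfl⟩
      have h1 : y.1 = x.1 := by rw [hr, hv0]; simp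
      rw [hlE y hy, h1]
      simp
    · refine ⟨l * conj v / v, ?_, fun y hy => ?_⟩
      · rw [norm_div, norm_mul, hl, one_mul, RCLike.norm_conj, div_self (norm_ne_zero_iff.2 hv0)]
      · obtain ⟨r, hr⟩ := hv y.1 ⟨y, hy, rfl⟩
        have h1 : y.1 - x.1 = r * v := by
          rw [hr]
          simp
        rw [hlE y hy, h1, map_mul, Complex.conj_ofReal]
        field_simp
  · obtain ⟨g, hg, hgs⟩ := SepDist.exists_dir hl ha
    refine ⟨g, hg, fun y hy => ?_⟩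
    have h1 := hgs (y.1 - x.1)
    rw [← hlE y hy] at h1
    rw [mem_clique] at hy
    linarith [hy.2]

end H95M
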