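import Pool.Agent.SepDist.Pack
import Pool.Agent.SepDist.Arc
import Pool.Agent.H95M.Clique

/-!
# Large sets of pairs have large cliques which are not proper
-/

open Finset ComplexConjugate SepDist

namespace H95M

/-! ### Most cliques are large -/

lemma card_small_cliques_le {E : Finset (ℂ × ℂ)} {D τ : ℝ}
    (hD1 : ∀ x ∈ E, ∀ y ∈ E, ‖x.1 - y.1‖ ≤ D) (hD2 : ∀ x ∈ E, ∀ y ∈ E, ‖x.2 - y.2‖ ≤ D)
    (hτ : 0 < τ) (hτ2 : τ ≤ 1 / 2) (hD : 1 ≤ D) {a : ℂ} (ha : ‖a‖ = 1) (M : ℕ) :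
    ((E.filter fun x => (clique E τ x a).card < M).card : ℝ) ≤
      324 * (D / τ) ^ 2 * M := by
  classical
  rcases E.eq_empty_or_nonempty with rfl | ⟨p0, hp0⟩
  · simp
    positivity
  set G := E.filter fun x => (clique E τ x a).card < M with hG
  set v0 := p0.2 - a * p0.1 with hv0
  set s := τ / 4 with hs
  have hspos : 0 < s := by positivity
  have hnorm : ∀ x ∈ E, ‖(x.2 - a * x.1) - v0‖ ≤ 2 * D := by
    intro x hx
    have e : (x.2 - a * x.1) - v0 = (x.2 - p0.2) - a * (x.1 - p0.1) := by rw [hv0]; ring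
    rw [e]
    refine (norm_sub_le _ _).trans ?_
    rw [norm_mul, ha, one_mul]
    have := hD1 x hx p0 hp0
    have := hD2 x hx p0 hp0
    linarith
  set T := (Icc (-⌈2 * D / s⌉) ⌈2 * D / s⌉) ×ˢ (Icc (-⌈2 * D / s⌉) ⌈2 * D / s⌉) with hT
  have hceil : 0 ≤ ⌈2 * D / s⌉ := Int.ceil_nonneg (by positivity)
  have hTcard : (T.card : ℤ) = (2 * ⌈2 * D / s⌉ + 1) ^ 2 := by
    rw [hT, card_product, Int.card_Icc]
    push_cast
    rw [Int.toNat_of_nonneg (by omega)]
    ring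
  have hmaps : ∀ x ∈ G, cell s v0 (x.2 - a * x.1) ∈ T := by
    intro x hx
    rw [hG, mem_filter] at hx
    exact cell_mem hspos (hnorm x hx.1)
  have hcard : G.card ≤ M * T.card := by
    refine card_le_mul_card_image_of_maps_to hmaps M fun c _ => ?_
    by_contra hcon
    push Not at hcon
    obtain ⟨x, hx⟩ : (G.filter fun y => cell s v0 (y.2 - a * y.1) = c).Nonempty :=
      card_pos.1 (by omega)
    rw [mem_filter, hG, mem_filter] at hx
    refine absurd hx.1.2 (not_lt.2 (hcon.le.trans (card_le_card fun y hy => ?_)))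
    rw [mem_filter, hG, mem_filter] at hy
    rw [mem_clique]
    refine ⟨hy.1.1, ?_⟩
    have h1 := norm_le_of_cell_eq hspos (hy.2.trans hx.2.symm)
    have e : y.2 - x.2 - a * (y.1 - x.1) = (y.2 - a * y.1) - (x.2 - a * x.1) := by ring
    rw [e]
    rw [hs] at h1
    linarith
  have hTR : (T.card : ℝ) ≤ 324 * (D / τ) ^ 2 := by
    have h1 : (T.card : ℝ) = (2 * (⌈2 * D / s⌉ : ℝ) + 1) ^ 2 := by exact_mod_cast hTcard
    rw [h1]
    have h2 : (⌈2 * D / s⌉ : ℝ) ≤ 2 * D / s + 1 := (Int.ceil_lt_add_one _).le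
    have h3 : 2 * D / s = 8 * (D / τ) := by rw [hs]; field_simp; ring
    have h4 : 2 ≤ D / τ := by rw [le_div_iff₀ hτ]; linarith
    have h5 : (0 : ℝ) ≤ ⌈2 * D / s⌉ := by exact_mod_cast hceil
    rw [h3] at h2 h5 ⊢
    nlinarith
  calc (G.card : ℝ) ≤ (M * T.card : ℕ) := by exact_mod_cast hcard
    _ = M * (T.card : ℝ) := by push_cast; ring
    _ ≤ M * (324 * (D / τ) ^ 2) := by gcongr
    _ = _ := by ring

/-! ### Motions -/

/-- The points `z` such that `(z, b z + c)` is in `E`. -/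
noncomputable def stab (E : Finset (ℂ × ℂ)) (e : ℂ × ℂ) : Finset ℂ :=
  (E.filter fun x => x.2 = e.1 * x.1 + e.2).image Prod.fst

lemma mem_stab {E : Finset (ℂ × ℂ)} {e : ℂ × ℂ} {q : ℂ} :
    q ∈ stab E e ↔ (q, e.1 * q + e.2) ∈ E := by
  unfold stab
  rw [mem_image]
  constructor
  · rintro ⟨x, hx, rfl⟩
    rw [mem_filter] at hx
    rw [← hx.2]
    exact hx.1
  · intro h
    exact ⟨(q, e.1 * q + e.2), mem_filter.2 ⟨h, rfl⟩, rfl⟩

/-- The proper motions with at least `j` pairs of `E`. -/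
noncomputable def motions (E : Finset (ℂ × ℂ)) (j : ℕ) : Finset (ℂ × ℂ) :=
  ((E ×ˢ E).image fun x =>
    ((x.2.2 - x.1.2) / (x.2.1 - x.1.1), x.1.2 - (x.2.2 - x.1.2) / (x.2.1 - x.1.1) * x.1.1)).filter
    fun e => ‖e.1‖ = 1 ∧ j ≤ (stab E e).card

lemma mem_motions {E : Finset (ℂ × ℂ)} {j : ℕ} (hj : 2 ≤ j) {e : ℂ × ℂ} :
    e ∈ motions E j ↔ ‖e.1‖ = 1 ∧ j ≤ (stab E e).card := by
  unfold motions
  rw [mem_filter, mem_image]
  refine ⟨fun h => h.2, fun h => ⟨?_, h⟩⟩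
  obtain ⟨p, hp, q, hq, hne⟩ := one_lt_card.1 (lt_of_lt_of_le (by omega) h.2)
  rw [mem_stab] at hp hq
  refine ⟨((p, e.1 * p + e.2), (q, e.1 * q + e.2)), ?_, ?_⟩
  · simp only [mem_product]
    exact ⟨hp, hq⟩
  · have h1 : q - p ≠ 0 := sub_ne_zero.2 (Ne.symm hne)
    have h2 : (e.1 * q + e.2 - (e.1 * p + e.2)) / (q - p) = e.1 := by
      rw [div_eq_iff h1]; ring
    simp only [h2]
    ext <;> simp

/-- Motions together with a pair of `E` on their graph. -/
noncomputable def flags (E : Finset (ℂ × ℂ)) (j : ℕ) : Finset ((ℂ × ℂ) × ℂ) :=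
  (motions E j ×ˢ (E.image Prod.fst)).filter fun x => (x.2, x.1.1 * x.2 + x.1.2) ∈ E

lemma mem_flags {E : Finset (ℂ × ℂ)} {j : ℕ} (hj : 2 ≤ j) {x : (ℂ × ℂ) × ℂ} :
    x ∈ flags E j ↔ (‖x.1.1‖ = 1 ∧ j ≤ (stab E x.1).card) ∧ (x.2, x.1.1 * x.2 + x.1.2) ∈ E := by
  unfold flags
  rw [mem_filter, mem_product, mem_motions hj, mem_image]
  refine ⟨fun h => ⟨h.1.1, h.2⟩, fun h => ⟨⟨h.1, ?_⟩, h.2⟩⟩
  exact ⟨(x.2, x.1.1 * x.2 + x.1.2), h.2, rfl⟩

lemma sum_flags {E : Finset (ℂ × ℂ)} {j : ℕ} (f : (ℂ × ℂ) × ℂ → ℝ) :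
    ∑ x ∈ flags E j, f x = ∑ e ∈ motions E j, ∑ p ∈ stab E e, f (e, p) := by
  unfold flags
  rw [sum_filter, sum_product]
  refine sum_congr rfl fun e _ => ?_
  rw [← sum_filter]
  refine sum_congr ?_ fun _ _ => rfl
  ext q
  rw [mem_filter, mem_stab, mem_image]
  refine ⟨fun h => h.2, fun h => ⟨⟨(q, e.1 * q + e.2), h, rfl⟩, h⟩⟩

/-- All cliques with more than `t` elements are proper. -/
def AllProper (E : Finset (ℂ × ℂ)) (τ : ℝ) (t : ℕ) : Prop :=
  ∀ x ∈ E, ∀ a : ℂ, ‖a‖ = 1 → t < (clique E τ x a).card →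
    ∃ b : ℂ, ‖b‖ = 1 ∧ ∀ y ∈ clique E τ x a, y.2 - x.2 = b * (y.1 - x.1)

/-- A large clique gives a motion close to the rotation. -/
lemma exists_flag {E : Finset (ℂ × ℂ)} (hE : Rigid E) {τ : ℝ} (hτ0 : 0 < τ) (hτ : τ ≤ 1 / 2)
    {t : ℕ} (ht1 : 1 ≤ t) (ht : AllProper E τ t) {m : ℕ} (htm : t + 1 ≤ m) {w : ℂ × ℂ} {a : ℂ}
    (hw : w ∈ E) (ha : ‖a‖ = 1) (hlarge : m ≤ (clique E τ w a).card) :
    ∃ x ∈ flags E (t + 1), (x.2 = w.1 ∧ x.1.1 * x.2 + x.1.2 = w.2) ∧
      ‖a - x.1.1‖ ≤ τ * (nn (stab E x.1) m x.2)⁻¹ := by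
  classical
  obtain ⟨p, r⟩ := w
  obtain ⟨b, hb, hbx⟩ := ht (p, r) hw a ha (by omega)
  simp only at hbx
  set e : ℂ × ℂ := (b, r - b * p) with he
  have hmove : ∀ x ∈ clique E τ (p, r) a, e.1 * x.1 + e.2 = x.2 := by
    intro x hx
    have := hbx x hx
    rw [he]
    simp only
    linear_combination -this
  -- the domain of the clique is contained in `stab`
  have hsub : ∀ x ∈ clique E τ (p, r) a, x.1 ∈ stab E e := by
    intro x hx
    rw [mem_stab, hmove x hx]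
    exact (mem_clique.1 hx).1
  have hcard : m ≤ (stab E e).card := by
    refine hlarge.trans ?_
    rw [← card_image_of_injOn (clique_fst_injOn hE hτ ha (x := (p, r)))]
    refine card_le_card fun z hz => ?_
    rw [mem_image] at hz
    obtain ⟨x, hx, rfl⟩ := hz
    exact hsub x hx
  refine ⟨(e, p), ?_, ⟨rfl, ?_⟩, ?_⟩
  · rw [mem_flags (by omega)]
    refine ⟨⟨hb, htm.trans hcard⟩, ?_⟩
    have : e.1 * p + e.2 = r := by rw [he]; ring
    simp only [this]
    exact hw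
  · simp only [he]; ring
  · simp only
    have hpos : 0 < nn (stab E e) m p := nn_pos (by omega) hcard
    rw [← div_eq_mul_inv, le_div_iff₀ hpos]
    by_cases hab : a = b
    · rw [he]
      simp only
      rw [hab, sub_self, norm_zero, zero_mul]
      exact hτ0.le
    · have hab' : 0 < ‖a - b‖ := norm_pos_iff.2 (sub_ne_zero.2 hab)
      have hnn : nn (stab E e) m p ≤ τ / ‖a - b‖ := by
        refine nn_le (by positivity) (hlarge.trans ?_)
        unfold cnt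
        rw [← card_image_of_injOn (clique_fst_injOn hE hτ ha (x := (p, r)))]
        refine card_le_card fun z hz => ?_
        rw [mem_image] at hz
        obtain ⟨x, hx, rfl⟩ := hz
        rw [mem_filter]
        refine ⟨hsub x hx, ?_⟩
        rw [le_div_iff₀ hab']
        have h1 := (mem_clique.1 hx).2
        simp only at h1
        rw [hbx x hx, ← sub_mul, norm_mul, norm_sub_rev b a, mul_comm] at h1
        exact h1.le
      rw [le_div_iff₀ hab', mul_comm] at hnn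
      exact hnn

/-- **Disjointness of the arcs.** -/
lemma flags_disjoint {E : Finset (ℂ × ℂ)} {τ : ℝ} (hτ0 : 0 < τ)
    {t : ℕ} (ht1 : 1 ≤ t) (ht : AllProper E τ t) {x y : (ℂ × ℂ) × ℂ}
    (hx : x ∈ flags E (t + 1)) (hy : y ∈ flags E (t + 1)) (hxy : x.2 = y.2)
    (hxy' : x.1.1 * x.2 + x.1.2 = y.1.1 * y.2 + y.1.2)
    (hlt : ‖x.1.1 - y.1.1‖ * nn (stab E x.1) (t + 1) x.2 < τ) : x = y := by
  classical
  rw [mem_flags (by omega)] at hx hy
  obtain ⟨⟨hx1, hx2⟩, hx3⟩ := hx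
  obtain ⟨⟨hy1, hy2⟩, hy3⟩ := hy
  obtain ⟨⟨b, c⟩, p⟩ := x
  obtain ⟨⟨b', c'⟩, p'⟩ := y
  simp only at hx1 hx2 hx3 hy1 hy2 hy3 hxy hxy' hlt
  subst hxy
  set r := b * p + c with hr
  -- the clique for the rotation `b'`
  have hin1 : ∀ q ∈ stab E (b', c'), (q, b' * q + c') ∈ clique E τ (p, r) b' := by
    intro q hq
    rw [mem_stab] at hq
    rw [mem_clique]
    refine ⟨hq, ?_⟩
    have : b' * q + c' - r - b' * (q - p) = 0 := by rw [hxy']; ring
    simp only [this, norm_zero]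
    exact hτ0
  have hin2 : ∀ q ∈ stab E (b, c), ‖q - p‖ ≤ nn (stab E (b, c)) (t + 1) p →
      (q, b * q + c) ∈ clique E τ (p, r) b' := by
    intro q hq hq'
    rw [mem_stab] at hq
    rw [mem_clique]
    refine ⟨hq, ?_⟩
    have : b * q + c - r - b' * (q - p) = (b - b') * (q - p) := by rw [hr]; ring
    simp only [this, norm_mul]
    refine lt_of_le_of_lt ?_ hlt
    gcongr
  have hlarge : t < (clique E τ (p, r) b').card := by
    have h1 : (stab E (b', c')).card ≤ (clique E τ (p, r) b').card := by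
      refine card_le_card_of_injOn (fun q => (q, b' * q + c')) (fun q hq => hin1 q hq) ?_
      intro q _ q' _ h
      exact congrArg Prod.fst h
    omega
  obtain ⟨d, -, hd⟩ := ht (p, r) hx3 b' hy1 hlarge
  have h1 : b' = d := by
    obtain ⟨q, hq, hqp⟩ := exists_mem_ne (lt_of_lt_of_le (by omega) hy2) p
    have h2 := hd _ (hin1 q hq)
    simp only at h2
    have h3 : q - p ≠ 0 := sub_ne_zero.2 hqp
    refine mul_right_cancel₀ h3 ?_
    rw [← h2, hxy']; ring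
  have h2 : b = d := by
    have hc : t + 1 ≤ cnt (stab E (b, c)) p (nn (stab E (b, c)) (t + 1) p) := le_cnt_nn p hx2
    unfold cnt at hc
    obtain ⟨q, hq, hqp⟩ := exists_mem_ne (lt_of_lt_of_le (by omega) hc) p
    rw [mem_filter] at hq
    have h2 := hd _ (hin2 q hq.1 hq.2)
    simp only at h2
    have h3 : q - p ≠ 0 := sub_ne_zero.2 hqp
    refine mul_right_cancel₀ h3 ?_
    rw [← h2, hr]; ring
  have hbb : b = b' := h2.trans h1.symm
  subst hbb
  have hcc : c = c' := by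
    rw [hr] at hxy'
    exact add_left_cancel hxy'
  rw [hcc]

lemma one_le_nn {S : Finset ℂ} (hS : ∀ p ∈ S, ∀ q ∈ S, p ≠ q → 1 ≤ ‖p - q‖) {p : ℂ}
    (hp : p ∈ S) {k : ℕ} (hk : 2 ≤ k) (hkS : k ≤ S.card) : 1 ≤ nn S k p := by
  by_contra hlt
  push Not at hlt
  have h1 := le_cnt_nn p hkS
  unfold cnt at h1
  obtain ⟨q, hq, hqp⟩ := exists_mem_ne (lt_of_lt_of_le (by omega) h1) p
  rw [mem_filter] at hq
  have h2 := hS q hq.1 p hp hqp
  linarith [hq.2]

/-- The core estimate. -/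
theorem core {E : Finset (ℂ × ℂ)} (hE : Rigid E)
    (hsep : ∀ x ∈ E, ∀ y ∈ E, x.1 ≠ y.1 → 1 ≤ ‖x.1 - y.1‖) {D τ : ℝ}
    (hD1 : ∀ x ∈ E, ∀ y ∈ E, ‖x.1 - y.1‖ ≤ D) (hD2 : ∀ x ∈ E, ∀ y ∈ E, ‖x.2 - y.2‖ ≤ D)
    (hτ0 : 0 < τ) (hτ : τ ≤ 1 / 2) (hD : 1 ≤ D) (hne : E.Nonempty) {t : ℕ} (ht1 : 1 ≤ t)
    (ht : AllProper E τ t) {m : ℕ} (htm : t + 1 ≤ m)
    (hm : 648 * (D / τ) ^ 2 * m ≤ (E.card : ℝ)) :
    (m : ℝ) ≤ 400000000 * ((t + 1 : ℕ) : ℝ) := by
  classical
  set n : ℝ := (E.card : ℝ) with hn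
  have hnpos : 0 < n := by
    rw [hn]
    exact_mod_cast card_pos.2 hne
  set j := t + 1 with hj
  have hj2 : 2 ≤ j := by omega
  -- upper bound
  have hflag : ∀ x ∈ flags E j, ‖x.1.1‖ = 1 := fun x hx => ((mem_flags hj2).1 hx).1.1
  have h1 : 2 * (n / 2) ≤ 3 * ∑ x ∈ flags E j, τ * (nn (stab E x.1) m x.2)⁻¹ := by
    refine sum_radius_ge (flags E j) (fun x => x.1.1) _ hflag
      (fun x _ => mul_nonneg hτ0.le (inv_nonneg.2 (nn_nonneg _ _ _))) (by positivity) fun φ => ?_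
    have hbad := card_small_cliques_le hD1 hD2 hτ0 hτ hD (norm_ex φ) m
    have hgood : n / 2 ≤
        ((E.filter fun x => ¬ (clique E τ x (ex φ)).card < m).card : ℝ) := by
      have hsplit := card_filter_add_card_filter_not (s := E)
        (fun x => (clique E τ x (ex φ)).card < m)
      have hsplit' : ((E.filter fun x => (clique E τ x (ex φ)).card < m).card : ℝ) +
          ((E.filter fun x => ¬ (clique E τ x (ex φ)).card < m).card : ℝ) = n := by
        rw [hn, ← Nat.cast_add, hsplit]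
      linarith
    refine hgood.trans ?_
    have hcard : (E.filter fun x => ¬ (clique E τ x (ex φ)).card < m).card ≤
        ((flags E j).filter fun x => ‖ex φ - x.1.1‖ ≤ τ * (nn (stab E x.1) m x.2)⁻¹).card := by
      refine card_le_card_of_surjOn (fun x => (x.2, x.1.1 * x.2 + x.1.2)) ?_
      rintro ⟨p, r⟩ hpr
      rw [mem_coe, mem_filter, not_lt] at hpr
      obtain ⟨x, hx, hx2, hx3⟩ := exists_flag hE hτ0 hτ ht1 ht htm hpr.1 (norm_ex φ) hpr.2
      refine ⟨x, ?_, ?_⟩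
      · rw [mem_coe, mem_filter]
        exact ⟨hx, hx3⟩
      · simp only
        rw [hx2.2, hx2.1]
    exact_mod_cast hcard
  -- lower bound
  have h2 : ∑ x ∈ flags E j, τ / 2 * (nn (stab E x.1) j x.2)⁻¹ ≤ 2 * Real.pi * n := by
    have hone : ∀ x ∈ flags E j, 1 ≤ nn (stab E x.1) j x.2 := by
      intro x hx
      rw [mem_flags hj2] at hx
      refine one_le_nn (fun p hp q hq hpq => ?_) (mem_stab.2 hx.2) hj2 hx.1.2
      exact hsep _ (mem_stab.1 hp) _ (mem_stab.1 hq) hpq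
    refine sum_radius_le (flags E j) (fun x => x.1.1) _ hflag
      (fun x _ => mul_nonneg (by positivity) (inv_nonneg.2 (nn_nonneg _ _ _))) ?_
      (by positivity) fun φ => ?_
    · intro x hx
      have h3 := inv_le_one_of_one_le₀ (hone x hx)
      have h4 : 0 ≤ (nn (stab E x.1) j x.2)⁻¹ := inv_nonneg.2 (nn_nonneg _ _ _)
      nlinarith
    · have hcard : ((flags E j).filter fun x =>
          ‖ex φ - x.1.1‖ < τ / 2 * (nn (stab E x.1) j x.2)⁻¹).card ≤ E.card := by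
        refine card_le_card_of_injOn (fun x => (x.2, x.1.1 * x.2 + x.1.2)) ?_ ?_
        · intro x hx
          rw [mem_coe, mem_filter, mem_flags hj2] at hx
          exact hx.1.2
        · intro x hx y hy hxy
          rw [mem_coe, mem_filter] at hx hy
          simp only [Prod.mk.injEq] at hxy
          have hFx := hone x hx.1
          have hFy := hone y hy.1
          have hd : ‖x.1.1 - y.1.1‖ < τ / 2 * (nn (stab E x.1) j x.2)⁻¹ +
              τ / 2 * (nn (stab E y.1) j y.2)⁻¹ := by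
            have e : x.1.1 - y.1.1 = (ex φ - y.1.1) - (ex φ - x.1.1) := by ring
            rw [e]
            refine lt_of_le_of_lt (norm_sub_le _ _) ?_
            linarith [hx.2, hy.2]
          set F := nn (stab E x.1) j x.2
          set G := nn (stab E y.1) j y.2
          rcases le_total F G with hFG | hFG
          · refine flags_disjoint hτ0 ht1 ht hx.1 hy.1 hxy.1 hxy.2 ?_
            have h3 : G⁻¹ ≤ F⁻¹ := inv_anti₀ (by linarith) hFG
            have h4 : ‖x.1.1 - y.1.1‖ < τ * F⁻¹ := by nlinarith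
            rwa [← div_eq_mul_inv, lt_div_iff₀ (by linarith)] at h4
          · refine (flags_disjoint hτ0 ht1 ht hy.1 hx.1 hxy.1.symm hxy.2.symm ?_).symm
            have h3 : F⁻¹ ≤ G⁻¹ := inv_anti₀ (by linarith) hFG
            have h4 : ‖y.1.1 - x.1.1‖ < τ * G⁻¹ := by rw [norm_sub_rev]; nlinarith
            rwa [← div_eq_mul_inv, lt_div_iff₀ (by linarith)] at h4
      rw [hn]
      exact_mod_cast hcard
  -- the packing lemma
  set P := ∑ x ∈ flags E j, (nn (stab E x.1) m x.2)⁻¹ with hP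
  set Q := ∑ x ∈ flags E j, (nn (stab E x.1) j x.2)⁻¹ with hQ
  have h3 : P ≤ 512 * Real.sqrt (j / m) * Q := by
    rw [hP, hQ, sum_flags (fun x => (nn (stab E x.1) m x.2)⁻¹),
      sum_flags (fun x => (nn (stab E x.1) j x.2)⁻¹), mul_sum]
    exact sum_le_sum fun e _ => sum_inv_nn_le (stab E e) hj2 htm
  rw [← mul_sum, ← hP] at h1
  rw [← mul_sum, ← hQ] at h2
  have hmpos : 0 < (m : ℝ) := by
    have : 0 < m := by omega
    exact_mod_cast this
  have hjpos : 0 < (j : ℝ) := by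
    have : 0 < j := by omega
    exact_mod_cast this
  set s := Real.sqrt (j / m) with hs
  have hspos : 0 < s := Real.sqrt_pos.2 (div_pos hjpos hmpos)
  have hs2 : s ^ 2 = j / m := Real.sq_sqrt (div_nonneg hjpos.le hmpos.le)
  have hpi := Real.pi_lt_d2
  have hpi0 := Real.pi_pos
  have h4 : n ≤ 1536 * s * (τ * Q) := by nlinarith
  have h5 : τ * Q ≤ 4 * Real.pi * n := by linarith
  have h6 : n ≤ 20000 * s * n := by
    calc n ≤ 1536 * s * (τ * Q) := h4
      _ ≤ 1536 * s * (4 * Real.pi * n) := by gcongr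
      _ = (6144 * Real.pi) * (s * n) := by ring
      _ ≤ 20000 * (s * n) := by
          apply mul_le_mul_of_nonneg_right _ (by positivity)
          linarith
      _ = _ := by ring
  have h7 : 1 ≤ 20000 * s := by
    by_contra hcon
    push Not at hcon
    nlinarith
  have h8 : 1 ≤ 400000000 * s ^ 2 := by nlinarith
  rw [hs2, mul_div_assoc', le_div_iff₀ hmpos] at h8
  linarith

/-- **Main lemma.** -/
theorem exists_reversed {E : Finset (ℂ × ℂ)} (hE : Rigid E)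
    (hsep : ∀ x ∈ E, ∀ y ∈ E, x.1 ≠ y.1 → 1 ≤ ‖x.1 - y.1‖) {D τ : ℝ}
    (hD1 : ∀ x ∈ E, ∀ y ∈ E, ‖x.1 - y.1‖ ≤ D) (hD2 : ∀ x ∈ E, ∀ y ∈ E, ‖x.2 - y.2‖ ≤ D)
    (hτ0 : 0 < τ) (hτ : τ ≤ 1 / 2) (hD : 1 ≤ D)
    (hcard : 10 ^ 12 * (D / τ) ^ 2 ≤ (E.card : ℝ)) :
    ∃ S : Finset ℂ, (E.card : ℝ) ≤ 10 ^ 12 * (D / τ) ^ 2 * S.card ∧
      (¬ Collinear ℝ (S : Set ℂ)) ∧
      (∃ l w : ℂ, ‖l‖ = 1 ∧ ∀ z ∈ S, (z, l * conj z + w) ∈ E) ∧
      ∃ p ∈ S, ∃ g : ℂ, ‖g‖ = 1 ∧ ∀ z ∈ S, |(conj g * (z - p)).im| < τ / 2 := by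
  classical
  have hDτ : 0 < (D / τ) ^ 2 := by positivity
  set Y : ℝ := (E.card : ℝ) / (10 ^ 12 * (D / τ) ^ 2) with hY
  have hY1 : 1 ≤ Y := by
    rw [hY, le_div_iff₀ (by positivity), one_mul]
    exact hcard
  have hEY : (E.card : ℝ) = 10 ^ 12 * (D / τ) ^ 2 * Y := by
    rw [hY, mul_div_cancel₀]
    exact (by positivity : (0 : ℝ) < 10 ^ 12 * (D / τ) ^ 2).ne'
  have hne : E.Nonempty := by
    rw [← card_pos]
    have : 0 < (E.card : ℝ) := lt_of_lt_of_le (by positivity) hcard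
    exact_mod_cast this
  set t := ⌈Y⌉₊ with ht
  have ht1 : 1 ≤ t := Nat.one_le_ceil_iff.2 (by linarith)
  have hYt : Y ≤ t := Nat.le_ceil Y
  have htY : (t : ℝ) < Y + 1 := Nat.ceil_lt_add_one (by linarith)
  by_cases hall : AllProper E τ t
  · exfalso
    have hY0 : (0 : ℝ) ≤ 10 ^ 12 / 648 * Y := mul_nonneg (by norm_num) (by linarith)
    obtain ⟨m, hm⟩ : ∃ m : ℕ, m = ⌊10 ^ 12 / 648 * Y⌋₊ := ⟨_, rfl⟩
    have hmY : (m : ℝ) ≤ 10 ^ 12 / 648 * Y := by rw [hm]; exact Nat.floor_le hY0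
    have hYm : 10 ^ 12 / 648 * Y < m + 1 := by rw [hm]; exact Nat.lt_floor_add_one _
    have htm : t + 1 ≤ m := by
      have : ((t + 1 : ℕ) : ℝ) ≤ m := by
        push_cast
        linarith
      exact_mod_cast this
    have h1 : 648 * (D / τ) ^ 2 * m ≤ (E.card : ℝ) := by
      calc 648 * (D / τ) ^ 2 * m ≤ 648 * (D / τ) ^ 2 * (10 ^ 12 / 648 * Y) := by gcongr
        _ = (E.card : ℝ) := by rw [hEY]; ring
    have h2 := core hE hsep hD1 hD2 hτ0 hτ hD hne ht1 hall htm h1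
    push_cast at h2
    linarith
  · unfold AllProper at hall
    push Not at hall
    obtain ⟨x, hx, a, ha, hlarge, hnot⟩ := hall
    rcases clique_alt hE hτ0 hτ hx ha with ⟨b, hb, hbx⟩ | ⟨⟨l, hl, hlx⟩, hcol, g, hg, hgx⟩
    · obtain ⟨y, hy, hy'⟩ := hnot b hb
      exact absurd (hbx y hy) hy'
    · have hxc := self_mem_clique hτ0 hx a
      refine ⟨(clique E τ x a).image Prod.fst, ?_, ?_, ⟨l, x.2 - l * conj x.1, hl, ?_⟩,
        x.1, mem_image_of_mem _ hxc, g, hg, ?_⟩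
      · rw [card_image_of_injOn (clique_fst_injOn hE hτ ha)]
        have h3 : Y ≤ ((clique E τ x a).card : ℝ) := by
          have : (t : ℝ) ≤ ((clique E τ x a).card : ℝ) := by exact_mod_cast hlarge.le
          linarith
        rw [hEY]
        gcongr
      · rw [coe_image]
        exact hcol
      · intro z hz
        rw [mem_image] at hz
        obtain ⟨y, hy, rfl⟩ := hz
        have h4 := hlx y hy
        have h5 : l * conj y.1 + (x.2 - l * conj x.1) = y.2 := by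
          rw [map_sub] at h4
          linear_combination -h4
        rw [h5]
        exact (mem_clique.1 hy).1
      · intro z hz
        rw [mem_image] at hz
        obtain ⟨y, hy, rfl⟩ := hz
        exact hgx y hy

end H95M
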