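import Pool.Agent.H95M.Core

/-!
# Almost all cliques are large and not proper
-/

open Finset ComplexConjugate SepDist MeasureTheory

namespace H95M

/-- The pairs of `Q` are on the graph of an orientation preserving isometry through `x`. -/
def Proper (Q : Finset (ℂ × ℂ)) (x : ℂ × ℂ) : Prop :=
  ∃ b : ℂ, ‖b‖ = 1 ∧ ∀ y ∈ Q, y.2 - x.2 = b * (y.1 - x.1)

lemma Proper.rebase {Q Q' : Finset (ℂ × ℂ)} {x y : ℂ × ℂ} (h : Proper Q' x) (hQ : Q ⊆ Q')
    (hy : y ∈ Q') : Proper Q y := by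
  obtain ⟨b, hb, hbx⟩ := h
  refine ⟨b, hb, fun z hz => ?_⟩
  have h1 := hbx z (hQ hz)
  have h2 := hbx y hy
  linear_combination h1 - h2

lemma clique_subset {E : Finset (ℂ × ℂ)} {τ : ℝ} {x y : ℂ × ℂ} {a : ℂ}
    (hy : y ∈ clique E τ x a) : clique E τ y a ⊆ clique E (2 * τ) x a := by
  intro z hz
  rw [mem_clique] at hy hz ⊢
  refine ⟨hz.1, ?_⟩
  have e : z.2 - x.2 - a * (z.1 - x.1) =
      (z.2 - y.2 - a * (z.1 - y.1)) + (y.2 - x.2 - a * (y.1 - x.1)) := by ring
  rw [e]
  refine lt_of_le_of_lt (norm_add_le _ _) ?_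
  linarith [hy.2, hz.2]

/-! ### Measurability -/

lemma measurableSet_clique_eq (E : Finset (ℂ × ℂ)) (τ : ℝ) (x : ℂ × ℂ) (F : Finset (ℂ × ℂ)) :
    MeasurableSet {φ : ℝ | clique E τ x (ex φ) = F} := by
  classical
  by_cases hF : F ⊆ E
  · have : {φ : ℝ | clique E τ x (ex φ) = F} =
        ⋂ y ∈ E, {φ : ℝ | ‖y.2 - x.2 - ex φ * (y.1 - x.1)‖ < τ ↔ y ∈ F} := by
      ext φ
      simp only [Set.mem_ofPred_eq, Set.mem_iInter]
      constructor
      · intro h y hy
        rw [← h, mem_clique]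
        exact ⟨fun h' => ⟨hy, h'⟩, fun h' => h'.2⟩
      · intro h
        ext y
        rw [mem_clique]
        exact ⟨fun h' => (h y h'.1).1 h'.2, fun h' => ⟨hF h', (h y (hF h')).2 h'⟩⟩
    rw [this]
    refine Finset.measurableSet_biInter _ fun y _ => ?_
    have hm : MeasurableSet {φ : ℝ | ‖y.2 - x.2 - ex φ * (y.1 - x.1)‖ < τ} := by
      refine (isOpen_lt ?_ continuous_const).measurableSet
      exact (continuous_const.sub (continuous_ex.mul continuous_const)).norm
    by_cases hy : y ∈ F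
    · simpa only [hy, iff_true] using hm
    · have e : {φ : ℝ | ‖y.2 - x.2 - ex φ * (y.1 - x.1)‖ < τ ↔ y ∈ F} =
          {φ : ℝ | ‖y.2 - x.2 - ex φ * (y.1 - x.1)‖ < τ}ᶜ := by
        ext φ
        simp only [hy, iff_false, Set.mem_ofPred_eq, Set.mem_compl_iff]
      rw [e]
      exact hm.compl
  · have : {φ : ℝ | clique E τ x (ex φ) = F} = ∅ := by
      ext φ
      simp only [Set.mem_ofPred_eq, Set.mem_empty_iff_false, iff_false]
      intro h
      apply hF
      rw [← h]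
      exact filter_subset _ _
    rw [this]
    exact MeasurableSet.empty

lemma measurableSet_pred (E : Finset (ℂ × ℂ)) (τ σ : ℝ) (x : ℂ × ℂ)
    (P : Finset (ℂ × ℂ) → Finset (ℂ × ℂ) → Prop) :
    MeasurableSet {φ : ℝ | P (clique E τ x (ex φ)) (clique E σ x (ex φ))} := by
  classical
  have : {φ : ℝ | P (clique E τ x (ex φ)) (clique E σ x (ex φ))} =
      ⋃ F ∈ (E.powerset ×ˢ E.powerset).filter (fun F => P F.1 F.2),
        {φ : ℝ | clique E τ x (ex φ) = F.1} ∩ {φ : ℝ | clique E σ x (ex φ) = F.2} := by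
    ext φ
    simp only [Set.mem_ofPred_eq, Set.mem_iUnion, Set.mem_inter_iff, exists_prop, mem_filter,
      mem_product, mem_powerset, Prod.exists]
    constructor
    · intro h
      exact ⟨_, _, ⟨⟨filter_subset _ _, filter_subset _ _⟩, h⟩, rfl, rfl⟩
    · rintro ⟨F, G, ⟨-, h⟩, h1, h2⟩
      rw [h1, h2]
      exact h
  rw [this]
  exact Finset.measurableSet_biUnion _ fun F _ =>
    (measurableSet_clique_eq E τ x F.1).inter (measurableSet_clique_eq E σ x F.2)

lemma sum_ang_eq {ι : Type*} (I : Finset ι) (W : ι → Set ℝ) (hW : ∀ i ∈ I, MeasurableSet (W i)) :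
    ∑ i ∈ I, ang (W i) = ∫⁻ φ, ∑ i ∈ I, ((W i).indicator 1 φ : ENNReal) ∂ang := by
  rw [lintegral_finsetSum]
  · refine Finset.sum_congr rfl fun i hi => ?_
    rw [lintegral_indicator_one (hW i hi)]
  · intro i hi
    exact measurable_one.indicator (hW i hi)

lemma sum_indicator {ι : Type*} (I : Finset ι) (W : ι → Set ℝ) (φ : ℝ)
    [DecidablePred fun i => φ ∈ W i] :
    ∑ i ∈ I, ((W i).indicator 1 φ : ENNReal) = ((I.filter fun i => φ ∈ W i).card : ENNReal) := by
  rw [Finset.card_filter]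
  push_cast
  refine Finset.sum_congr rfl fun i _ => ?_
  rw [Set.indicator_apply]
  simp only [Pi.one_apply]

open Classical in
lemma sum_ang_le {ι : Type*} (I : Finset ι) (W W' : ι → Set ℝ)
    (hW : ∀ i ∈ I, MeasurableSet (W i)) (hW' : ∀ i ∈ I, MeasurableSet (W' i)) (c : ℕ)
    (h : ∀ φ : ℝ, (I.filter fun i => φ ∈ W i).card ≤ c * (I.filter fun i => φ ∈ W' i).card) :
    ∑ i ∈ I, ang (W i) ≤ c * ∑ i ∈ I, ang (W' i) := by
  rw [sum_ang_eq I W hW, sum_ang_eq I W' hW', ← lintegral_const_mul]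
  · refine lintegral_mono fun φ => ?_
    simp only
    rw [sum_indicator, sum_indicator]
    exact_mod_cast h φ
  · exact Finset.measurable_sum _ fun i hi => measurable_one.indicator (hW' i hi)

open Classical in
lemma sum_ang_le_const {ι : Type*} (I : Finset ι) (W : ι → Set ℝ)
    (hW : ∀ i ∈ I, MeasurableSet (W i)) (N : ℝ)
    (h : ∀ φ : ℝ, ((I.filter fun i => φ ∈ W i).card : ℝ) ≤ N) :
    ∑ i ∈ I, ang (W i) ≤ ENNReal.ofReal (N * (2 * Real.pi)) := by
  have hN : 0 ≤ N := (Nat.cast_nonneg _).trans (h 0)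
  rw [sum_ang_eq I W hW, ENNReal.ofReal_mul hN, ← ang_univ, ← lintegral_const]
  refine lintegral_mono fun φ => ?_
  simp only
  rw [sum_indicator, ← ENNReal.ofReal_natCast]
  exact ENNReal.ofReal_le_ofReal (h φ)

/-! ### For a fixed rotation -/

/-- The displacement of a pair. -/
def dsp (a : ℂ) (y : ℂ × ℂ) : ℂ := y.2 - a * y.1

lemma mem_clique' {E : Finset (ℂ × ℂ)} {τ : ℝ} {x : ℂ × ℂ} {a : ℂ} {y : ℂ × ℂ} :
    y ∈ clique E τ x a ↔ y ∈ E ∧ ‖dsp a y - dsp a x‖ < τ := by
  rw [mem_clique]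
  unfold dsp
  have e : y.2 - a * y.1 - (x.2 - a * x.1) = y.2 - x.2 - a * (y.1 - x.1) := by ring
  rw [e]

/-- A pair with a proper clique and a second pair very close to it. -/
def Good (E : Finset (ℂ × ℂ)) (τ σ : ℝ) (a : ℂ) (y : ℂ × ℂ) : Prop :=
  Proper (clique E τ y a) y ∧ ∃ z ∈ clique E σ y a, z ≠ y

/-- A pair with a large proper clique. -/
def Big (E : Finset (ℂ × ℂ)) (τ : ℝ) (m : ℕ) (a : ℂ) (x : ℂ × ℂ) : Prop :=
  Proper (clique E (2 * τ) x a) x ∧ m ≤ (clique E τ x a).card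

open Classical in
/-- Half of a large clique is good. -/
lemma half_good {E : Finset (ℂ × ℂ)} {τ : ℝ} (hτ : 0 < τ) {m : ℕ} (hm : 8100 ≤ m) {a : ℂ}
    {x : ℂ × ℂ} (hp : Proper (clique E (2 * τ) x a) x) (hx : m ≤ (clique E τ x a).card) :
    (clique E τ x a).card ≤
      2 * ((clique E τ x a).filter fun y => Good E τ (15 * τ / Real.sqrt m) a y).card := by
  set Q := clique E τ x a with hQ
  have hm' : (8100 : ℝ) ≤ m := by exact_mod_cast hm
  set r := Real.sqrt m with hr
  have hr2 : r ^ 2 = m := Real.sq_sqrt (by positivity)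
  have hr90 : 90 ≤ r := Real.le_sqrt_of_sq_le (by linarith)
  set s := 5 * τ / r with hs
  have hrpos : 0 < r := by linarith
  have hspos : 0 < s := by positivity
  have hτs : τ / s = r / 5 := by
    rw [hs]
    field_simp
  set T := (Icc (-⌈τ / s⌉) ⌈τ / s⌉) ×ˢ (Icc (-⌈τ / s⌉) ⌈τ / s⌉) with hT
  have hceil : 0 ≤ ⌈τ / s⌉ := Int.ceil_nonneg (by positivity)
  have hTcard : (T.card : ℤ) = (2 * ⌈τ / s⌉ + 1) ^ 2 := by
    rw [hT, card_product, Int.card_Icc]
    push_cast
    rw [Int.toNat_of_nonneg (by omega)]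
    ring
  have hTm : 2 * T.card ≤ Q.card := by
    refine le_trans ?_ hx
    have h1 : (T.card : ℝ) = (2 * (⌈τ / s⌉ : ℝ) + 1) ^ 2 := by exact_mod_cast hTcard
    have h2 : (⌈τ / s⌉ : ℝ) ≤ r / 5 + 1 := by
      rw [← hτs]
      exact (Int.ceil_lt_add_one _).le
    have h3 : (0 : ℝ) ≤ ⌈τ / s⌉ := by exact_mod_cast hceil
    have h4 : (2 * T.card : ℝ) ≤ m := by
      rw [h1, ← hr2]
      nlinarith
    exact_mod_cast h4
  set A1 := Q.filter fun y => ∀ z ∈ Q, cell s (dsp a x) (dsp a z) = cell s (dsp a x) (dsp a y) →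
    z = y with hA1
  have hA1card : A1.card ≤ T.card := by
    refine card_le_card_of_injOn (fun y => cell s (dsp a x) (dsp a y)) ?_ ?_
    · intro y hy
      rw [mem_coe, hA1, mem_filter, hQ, mem_clique'] at hy
      exact cell_mem hspos hy.1.2.le
    · intro y hy z hz hyz
      rw [mem_coe, hA1, mem_filter] at hy hz
      exact hz.2 y hy.1 hyz
  have hsplit := card_filter_add_card_filter_not (s := Q)
    (fun y => ∀ z ∈ Q, cell s (dsp a x) (dsp a z) = cell s (dsp a x) (dsp a y) → z = y)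
  rw [← hA1] at hsplit
  have hsub : (Q.filter fun y => ¬ ∀ z ∈ Q, cell s (dsp a x) (dsp a z) =
      cell s (dsp a x) (dsp a y) → z = y).card ≤
      (Q.filter fun y => Good E τ (15 * τ / r) a y).card := by
    refine card_le_card fun y hy => ?_
    rw [mem_filter] at hy ⊢
    obtain ⟨hyQ, hy2⟩ := hy
    refine ⟨hyQ, hp.rebase (clique_subset hyQ) ?_, ?_⟩
    · rw [hQ, mem_clique] at hyQ
      rw [mem_clique]
      exact ⟨hyQ.1, hyQ.2.trans (by linarith)⟩
    · push Not at hy2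
      obtain ⟨z, hz, hzy, hne⟩ := hy2
      refine ⟨z, ?_, hne⟩
      rw [hQ, mem_clique'] at hz
      rw [mem_clique']
      refine ⟨hz.1, lt_of_le_of_lt (norm_le_of_cell_eq hspos hzy) ?_⟩
      have : 15 * τ / r = 3 * s := by rw [hs]; ring
      rw [this]
      linarith
  omega

open Classical in
/-- For a fixed rotation the good pairs are at least a fixed proportion of the pairs with large
proper cliques. -/
lemma card_proper_le {E : Finset (ℂ × ℂ)} {τ : ℝ} (hτ : 0 < τ) {m : ℕ} (hm : 8100 ≤ m) (a : ℂ) :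
    (E.filter fun x => Big E τ m a x).card ≤
      162 * (E.filter fun y => Good E τ (15 * τ / Real.sqrt m) a y).card := by
  set X := E.filter fun x => Big E τ m a x with hX
  set G := E.filter fun y => Good E τ (15 * τ / Real.sqrt m) a y with hG
  set s := τ / 4 with hs
  have hspos : 0 < s := by positivity
  set f : ℂ × ℂ → ℤ × ℤ := fun y => cell s 0 (dsp a y) with hf
  set N : ℤ × ℤ → ℤ × ℤ → Prop := fun u v => |u.1 - v.1| ≤ 4 ∧ |u.2 - v.2| ≤ 4 with hN
  have hfl : ∀ u v : ℝ, |u - v| < τ → |⌊u / s⌋ - ⌊v / s⌋| ≤ 4 := by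
    intro u v huv
    have h1 := Int.floor_le (u / s)
    have h2 := Int.lt_floor_add_one (u / s)
    have h3 := Int.floor_le (v / s)
    have h4 := Int.lt_floor_add_one (v / s)
    have h5 : |u / s - v / s| < 4 := by
      rw [← sub_div, abs_div, abs_of_pos hspos, div_lt_iff₀ hspos, hs]
      linarith
    rw [abs_lt] at h5
    have h6 : |((⌊u / s⌋ - ⌊v / s⌋ : ℤ) : ℝ)| < 5 := by
      push_cast
      rw [abs_lt]
      constructor <;> linarith [h5.1, h5.2]
    have h7 : |⌊u / s⌋ - ⌊v / s⌋| < 5 := by exact_mod_cast h6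
    omega
  have hnear : ∀ x ∈ E, ∀ y ∈ clique E τ x a, N (f y) (f x) := by
    intro x hx y hy
    rw [mem_clique'] at hy
    rw [hN, hf]
    unfold cell
    simp only [sub_zero]
    refine ⟨hfl _ _ ?_, hfl _ _ ?_⟩
    · rw [← Complex.sub_re]
      exact lt_of_le_of_lt (Complex.abs_re_le_norm _) hy.2
    · rw [← Complex.sub_im]
      exact lt_of_le_of_lt (Complex.abs_im_le_norm _) hy.2
  have hfib : ∀ c ∈ X.image f, (X.filter fun x => f x = c).card ≤
      2 * (G.filter fun y => N (f y) c).card := by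
    intro c hc
    rw [mem_image] at hc
    obtain ⟨x, hx, rfl⟩ := hc
    have hx' := hx
    rw [hX, mem_filter] at hx'
    have h1 : (X.filter fun z => f z = f x).card ≤ (clique E τ x a).card := by
      refine card_le_card fun z hz => ?_
      rw [mem_filter] at hz
      rw [mem_clique']
      refine ⟨(mem_filter.1 hz.1).1, lt_of_le_of_lt (norm_le_of_cell_eq hspos hz.2) ?_⟩
      rw [hs]
      linarith
    have h2 := half_good hτ hm hx'.2.1 hx'.2.2
    have h3 : ((clique E τ x a).filter fun y => Good E τ (15 * τ / Real.sqrt m) a y).card ≤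
        (G.filter fun y => N (f y) (f x)).card := by
      refine card_le_card fun y hy => ?_
      rw [mem_filter] at hy
      rw [mem_filter, hG, mem_filter]
      exact ⟨⟨(mem_clique.1 hy.1).1, hy.2⟩, hnear x hx'.1 y hy.1⟩
    omega
  have hcount : ∀ y ∈ G, ((X.image f).filter fun c => N (f y) c).card ≤ 81 := by
    intro y _
    have h1 : (X.image f).filter (fun c => N (f y) c) ⊆
        (Icc ((f y).1 - 4) ((f y).1 + 4)) ×ˢ (Icc ((f y).2 - 4) ((f y).2 + 4)) := by
      intro c hc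
      rw [mem_filter] at hc
      obtain ⟨-, h1, h2⟩ := hc
      rw [abs_le] at h1 h2
      rw [mem_product, mem_Icc, mem_Icc]
      constructor <;> constructor <;> linarith [h1.1, h1.2, h2.1, h2.2]
    refine (card_le_card h1).trans (le_of_eq ?_)
    rw [card_product, Int.card_Icc, Int.card_Icc]
    have e1 : (f y).1 + 4 + 1 - ((f y).1 - 4) = 9 := by ring
    have e2 : (f y).2 + 4 + 1 - ((f y).2 - 4) = 9 := by ring
    rw [e1, e2]
    rfl
  calc X.card = ∑ c ∈ X.image f, (X.filter fun x => f x = c).card :=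
        card_eq_sum_card_image f X
    _ ≤ ∑ c ∈ X.image f, 2 * (G.filter fun y => N (f y) c).card := sum_le_sum hfib
    _ = 2 * ∑ c ∈ X.image f, (G.filter fun y => N (f y) c).card := by rw [mul_sum]
    _ = 2 * ∑ y ∈ G, ((X.image f).filter fun c => N (f y) c).card := by
        congr 1
        simp only [card_filter]
        rw [sum_comm]
    _ ≤ 2 * ∑ _y ∈ G, 81 := by
        gcongr with y hy
        exact hcount y hy
    _ = 162 * G.card := by rw [sum_const, smul_eq_mul]; ring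

/-! ### For a fixed pair -/

/-- For a fixed pair the good rotations are rare. -/
lemma ang_good_le {E : Finset (ℂ × ℂ)}
    (hsep : ∀ x ∈ E, ∀ y ∈ E, x.1 ≠ y.1 → 1 ≤ ‖x.1 - y.1‖) {τ σ : ℝ} (hτ0 : 0 < τ)
    (hτ : τ ≤ 1 / 2) (hσ0 : 0 < σ) (hσ : σ ≤ τ / 6) {x : ℂ × ℂ} (hx : x ∈ E) :
    ang {φ : ℝ | Good E τ σ (ex φ) x} ≤ ENNReal.ofReal (720 * (σ / τ)) := by
  classical
  set I : Set (ℂ × ℂ) := {y | y ∈ E ∧ y.1 ≠ x.1 ∧ ‖y.2 - x.2‖ = ‖y.1 - x.1‖} with hI
  have hIfin : I.Finite := E.finite_toSet.subset fun y hy => hy.1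
  set b : ℂ × ℂ → ℂ := fun y => (y.2 - x.2) / (y.1 - x.1) with hb
  set lam : ℂ × ℂ → ℝ := fun y => ‖y.1 - x.1‖ with hlam
  have hlam1 : ∀ y ∈ I, 1 ≤ lam y := fun y hy => hsep y hy.1 x hx hy.2.1
  have hne : ∀ y ∈ I, y.1 - x.1 ≠ 0 := fun y hy => sub_ne_zero.2 hy.2.1
  have hb1 : ∀ y ∈ I, ‖b y‖ = 1 := by
    intro y hy
    rw [hb]
    simp only
    rw [norm_div, hy.2.2, div_self (norm_ne_zero_iff.2 (hne y hy))]
  have hby : ∀ y ∈ I, y.2 - x.2 = b y * (y.1 - x.1) := fun y hy =>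
    (div_mul_cancel₀ _ (hne y hy)).symm
  set B : ℂ × ℂ → Set ℝ := fun y => {φ : ℝ | ‖ex φ - b y‖ ≤ τ / 6 / lam y} with hB
  obtain ⟨u, huI, hdisj, hcov⟩ := Vitali.exists_disjoint_subfamily_covering_enlargement B I
    (fun y => τ / 6 / lam y) 2 (by norm_num)
    (fun y hy => by have := hlam1 y hy; positivity) 1
    (fun y hy => by
      have h1 := hlam1 y hy
      rw [div_le_one (by linarith)]
      linarith)
    (fun y hy => by
      obtain ⟨ψ, -, hψ⟩ := exists_angle (hb1 y hy)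
      refine ⟨ψ, ?_⟩
      have h1 := hlam1 y hy
      rw [hB]
      simp only [Set.mem_ofPred_eq]
      rw [hψ, sub_self, norm_zero]
      positivity)
  have hufin : u.Finite := hIfin.subset huI
  set U := hufin.toFinset with hU
  have hUmem : ∀ {y}, y ∈ U ↔ y ∈ u := fun {y} => hufin.mem_toFinset
  have hBmeas : ∀ y, MeasurableSet (B y) := fun y => measurableSet_arc _ _
  -- the sum of the radii
  have hsum : ∑ y ∈ U, τ / 6 / lam y ≤ 2 * Real.pi := by
    have h1 : ∑ y ∈ U, ang (B y) ≤ ang Set.univ := by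
      refine sum_measure_le_measure_univ (fun y _ => (hBmeas y).nullMeasurableSet) ?_
      intro y hy z hz hyz
      exact (hdisj (hUmem.1 hy) (hUmem.1 hz) hyz).aedisjoint
    have h2 : ENNReal.ofReal (∑ y ∈ U, τ / 6 / lam y) ≤ ∑ y ∈ U, ang (B y) := by
      rw [ENNReal.ofReal_sum_of_nonneg fun y hy => by
        have := hlam1 y (huI (hUmem.1 hy))
        positivity]
      refine sum_le_sum fun y hy => ?_
      have h3 := hlam1 y (huI (hUmem.1 hy))
      refine (le_ang_arc (hb1 y (huI (hUmem.1 hy))) (ρ := τ / 6 / lam y) ?_).trans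
        (measure_mono fun φ hφ => ?_)
      · rw [div_le_one (by linarith)]
        linarith
      · have hφ' : ‖ex φ - b y‖ < τ / 6 / lam y := hφ
        exact hφ'.le
    have h3 := h2.trans h1
    rw [ang_univ, ENNReal.ofReal_le_ofReal_iff (by positivity)] at h3
    exact h3
  -- the good rotations are covered
  have hcover : {φ : ℝ | Good E τ σ (ex φ) x} ⊆
      ⋃ k ∈ U, {φ : ℝ | ‖ex φ - b k‖ ≤ 2 * σ / lam k} := by
    rintro φ ⟨⟨c, hc, hcx⟩, y, hy, hyx⟩
    rw [mem_clique] at hy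
    have hyτ : y ∈ clique E τ x (ex φ) := by
      rw [mem_clique]
      exact ⟨hy.1, hy.2.trans_le (by linarith)⟩
    have hyc := hcx y hyτ
    have hy1 : y.1 ≠ x.1 := by
      intro h
      apply hyx
      rw [h, sub_self, mul_zero] at hyc
      exact Prod.ext h (sub_eq_zero.1 hyc)
    have hyI : y ∈ I := ⟨hy.1, hy1, by rw [hyc, norm_mul, hc, one_mul]⟩
    have hl1 := hlam1 y hyI
    have hbc : b y = c := mul_right_cancel₀ (hne y hyI) (by rw [← hby y hyI, hyc])
    have hclose : ‖ex φ - b y‖ * lam y < σ := by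
      have h1 := hy.2
      rw [hyc, ← sub_mul, norm_mul, norm_sub_rev, ← hbc] at h1
      exact h1
    obtain ⟨k, hk, ⟨ψ, hψy, hψk⟩, hle⟩ := hcov y hyI
    have hkI := huI hk
    have hlk := hlam1 k hkI
    have hle' : lam k ≤ 2 * lam y := by
      have h0 : 0 < τ / 6 := by positivity
      rw [div_le_iff₀ (by linarith), ← mul_div_assoc, div_mul_eq_mul_div,
        le_div_iff₀ (by linarith)] at hle
      nlinarith
    have hψy' : ‖ex ψ - b y‖ ≤ τ / 6 / lam y := hψy
    have hψk' : ‖ex ψ - b k‖ ≤ τ / 6 / lam k := hψk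
    have hr : τ / 6 / lam y ≤ 2 * (τ / 6 / lam k) := hle
    -- the rotation is close to that of `k`
    have h5 : ‖ex φ - b y‖ ≤ τ / 6 / lam y := by
      rw [le_div_iff₀ (by linarith)]
      linarith
    have h6 : ‖b k - ex φ‖ < τ / lam k := by
      have e : b k - ex φ = -(ex ψ - b k) + (ex ψ - b y) + -(ex φ - b y) := by ring
      have h7 : ‖b k - ex φ‖ ≤ ‖ex ψ - b k‖ + ‖ex ψ - b y‖ + ‖ex φ - b y‖ := by
        rw [e]
        refine (norm_add_le _ _).trans ?_
        rw [norm_neg]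
        gcongr
        refine (norm_add_le _ _).trans ?_
        rw [norm_neg]
      have h8 : τ / lam k = 6 * (τ / 6 / lam k) := by ring
      have h9 : 0 < τ / 6 / lam k := by positivity
      rw [h8]
      linarith
    have hkcl : k ∈ clique E τ x (ex φ) := by
      rw [mem_clique]
      refine ⟨hkI.1, ?_⟩
      rw [hby k hkI, ← sub_mul, norm_mul]
      rwa [lt_div_iff₀ (by linarith)] at h6
    have hkc : b k = c := by
      have := hcx k hkcl
      rw [hby k hkI] at this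
      exact mul_right_cancel₀ (hne k hkI) this
    rw [Set.mem_iUnion₂]
    refine ⟨k, hUmem.2 hk, ?_⟩
    simp only [Set.mem_ofPred_eq]
    rw [hkc, ← hbc, le_div_iff₀ (by linarith)]
    have h10 : 0 ≤ ‖ex φ - b y‖ := norm_nonneg _
    nlinarith
  calc ang {φ : ℝ | Good E τ σ (ex φ) x}
      ≤ ang (⋃ k ∈ U, {φ : ℝ | ‖ex φ - b k‖ ≤ 2 * σ / lam k}) := measure_mono hcover
    _ ≤ ∑ k ∈ U, ang {φ : ℝ | ‖ex φ - b k‖ ≤ 2 * σ / lam k} := measure_biUnion_finset_le _ _
    _ ≤ ∑ k ∈ U, ENNReal.ofReal (3 * Real.pi * (2 * σ / lam k)) := by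
        refine sum_le_sum fun k hk => ?_
        have h1 := hlam1 k (huI (hUmem.1 hk))
        exact ang_arc_le (hb1 k (huI (hUmem.1 hk))) (by positivity)
    _ = ENNReal.ofReal (∑ k ∈ U, 3 * Real.pi * (2 * σ / lam k)) := by
        rw [ENNReal.ofReal_sum_of_nonneg fun k hk => by
          have := hlam1 k (huI (hUmem.1 hk))
          positivity]
    _ ≤ ENNReal.ofReal (720 * (σ / τ)) := by
        refine ENNReal.ofReal_le_ofReal ?_
        have e : ∑ k ∈ U, 3 * Real.pi * (2 * σ / lam k) =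
            36 * Real.pi * (σ / τ) * ∑ k ∈ U, τ / 6 / lam k := by
          rw [mul_sum]
          refine sum_congr rfl fun k _ => ?_
          field_simp
          ring
        rw [e]
        have hpi := Real.pi_lt_d2
        have hpi0 := Real.pi_pos
        have h1 : 0 ≤ σ / τ := by positivity
        calc 36 * Real.pi * (σ / τ) * ∑ k ∈ U, τ / 6 / lam k
            ≤ 36 * Real.pi * (σ / τ) * (2 * Real.pi) := by gcongr
          _ = (72 * (Real.pi * Real.pi)) * (σ / τ) := by ring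
          _ ≤ 720 * (σ / τ) := by
              gcongr
              nlinarith

/-! ### Almost all cliques are large and not proper -/

theorem robust {E : Finset (ℂ × ℂ)}
    (hsep : ∀ x ∈ E, ∀ y ∈ E, x.1 ≠ y.1 → 1 ≤ ‖x.1 - y.1‖) {D τ : ℝ}
    (hD1 : ∀ x ∈ E, ∀ y ∈ E, ‖x.1 - y.1‖ ≤ D) (hD2 : ∀ x ∈ E, ∀ y ∈ E, ‖x.2 - y.2‖ ≤ D)
    (hτ0 : 0 < τ) (hτ : τ ≤ 1 / 4) (hD : 1 ≤ D) {m : ℕ} (hm : 8100 ≤ m) :
    ∑ x ∈ E, ang {φ : ℝ | ¬ (¬ Proper (clique E (2 * τ) x (ex φ)) x ∧
        m ≤ (clique E τ x (ex φ)).card)} ≤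
      ENNReal.ofReal (324 * (D / τ) ^ 2 * m * (2 * Real.pi) +
        1749600 / Real.sqrt m * E.card) := by
  classical
  have hm' : (8100 : ℝ) ≤ m := by exact_mod_cast hm
  have hr90 : 90 ≤ Real.sqrt m := Real.le_sqrt_of_sq_le (by linarith)
  have hrpos : 0 < Real.sqrt m := by linarith
  set σ := 15 * τ / Real.sqrt m with hσ
  have hσ0 : 0 < σ := by positivity
  have hσ1 : σ ≤ τ / 6 := by
    rw [hσ, div_le_div_iff₀ hrpos (by norm_num)]
    nlinarith
  set W1 : ℂ × ℂ → Set ℝ := fun x => {φ : ℝ | (clique E τ x (ex φ)).card < m} with hW1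
  set W2 : ℂ × ℂ → Set ℝ := fun x => {φ : ℝ | Big E τ m (ex φ) x} with hW2
  set W3 : ℂ × ℂ → Set ℝ := fun x => {φ : ℝ | Good E τ σ (ex φ) x} with hW3
  have m1 : ∀ x ∈ E, MeasurableSet (W1 x) := fun x _ =>
    measurableSet_pred E τ τ x fun F _ => F.card < m
  have m2 : ∀ x ∈ E, MeasurableSet (W2 x) := fun x _ =>
    measurableSet_pred E (2 * τ) τ x fun F G => Proper F x ∧ m ≤ G.card
  have m3 : ∀ x ∈ E, MeasurableSet (W3 x) := fun x _ =>
    measurableSet_pred E τ σ x fun F G => Proper F x ∧ ∃ y ∈ G, y ≠ x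
  have s1 : ∑ x ∈ E, ang (W1 x) ≤ ENNReal.ofReal (324 * (D / τ) ^ 2 * m * (2 * Real.pi)) := by
    refine sum_ang_le_const E W1 m1 _ fun φ => ?_
    have h1 := card_small_cliques_le hD1 hD2 hτ0 (by linarith) hD (norm_ex φ) m
    refine le_trans (Nat.cast_le.2 (card_le_card
      (t := E.filter fun x => (clique E τ x (ex φ)).card < m) fun i hi => ?_)) h1
    simp only [mem_filter] at hi ⊢
    exact hi
  have s2 : ∑ x ∈ E, ang (W2 x) ≤ (162 : ℕ) * ∑ x ∈ E, ang (W3 x) := by
    refine sum_ang_le E W2 W3 m2 m3 162 fun φ => ?_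
    exact card_proper_le hτ0 hm (ex φ)
  have s3 : ∑ x ∈ E, ang (W3 x) ≤ E.card * ENNReal.ofReal (720 * (σ / τ)) := by
    rw [← nsmul_eq_mul, ← sum_const]
    exact sum_le_sum fun x hx => ang_good_le hsep hτ0 (by linarith) hσ0 hσ1 hx
  have s4 : ∑ x ∈ E, ang (W2 x) ≤ ENNReal.ofReal (1749600 / Real.sqrt m * E.card) := by
    refine (s2.trans (mul_le_mul' le_rfl s3)).trans (le_of_eq ?_)
    rw [← ENNReal.ofReal_natCast, ← ENNReal.ofReal_natCast, ← ENNReal.ofReal_mul (by positivity),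
      ← ENNReal.ofReal_mul (by positivity)]
    congr 1
    rw [hσ]
    push_cast
    field_simp
    ring
  have hsub : ∀ x ∈ E, ang {φ : ℝ | ¬ (¬ Proper (clique E (2 * τ) x (ex φ)) x ∧
      m ≤ (clique E τ x (ex φ)).card)} ≤ ang (W1 x) + ang (W2 x) := by
    intro x _
    refine (measure_mono fun φ hφ => ?_).trans (measure_union_le _ _)
    rw [Set.mem_union]
    by_cases h : m ≤ (clique E τ x (ex φ)).card
    · right
      refine ⟨?_, h⟩
      by_contra hnot
      exact hφ ⟨hnot, h⟩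
    · left
      exact not_le.1 h
  refine (sum_le_sum hsub).trans ?_
  rw [sum_add_distrib, ENNReal.ofReal_add (by positivity) (by positivity)]
  exact add_le_add s1 s4

end H95M
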